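import Pool.Agent.Helper2.CT.Trace

/-!
# The trace of the form degree, and an isomorphism which preserves the columns
-/

set_option autoImplicit false

namespace Pool.Agent.Twists2

open Module

theorem sum4_comm (s : Finset ℕ) (f : ℕ → ℕ → ℕ → ℕ → ℂ) :
    (∑ a ∈ s, ∑ b ∈ s, ∑ c ∈ s, ∑ d ∈ s, f a b c d : ℂ) =
      ∑ c ∈ s, ∑ d ∈ s, ∑ a ∈ s, ∑ b ∈ s, f a b c d := by
  have h : ∀ a ∈ s, (∑ b ∈ s, ∑ c ∈ s, ∑ d ∈ s, f a b c d : ℂ) =
      ∑ c ∈ s, ∑ d ∈ s, ∑ b ∈ s, f a b c d := by
    intro a _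
    rw [Finset.sum_comm]
    exact Finset.sum_congr rfl fun c _ => Finset.sum_comm
  rw [Finset.sum_congr rfl h, Finset.sum_comm]
  exact Finset.sum_congr rfl fun c _ => Finset.sum_comm

namespace Bigraded

variable {n : ℕ} {V W : Type*} [AddCommGroup V] [Module ℂ V] [AddCommGroup W] [Module ℂ W]
  {G : Bigraded n V} {G' : Bigraded n W} [FiniteDimensional ℂ V] [FiniteDimensional ℂ W]

omit [FiniteDimensional ℂ W] in
theorem block_identity {U : V ≃ₗ[ℂ] W}
    (hU : ∀ p q v, v ∈ G.H p q → U v ∈ G'.column ((p : ℤ) - q)) {p q p' q' : ℕ}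
    (hp : p ≤ n) (hp' : p' ≤ n) :
    (-1 : ℂ) ^ (p' + q') * p' * block G G' U p q p' q' =
      (-1 : ℂ) ^ (p + q) * p * block G G' U p q p' q' +
      ∑ j ∈ Finset.Icc (-n : ℤ) n, (j : ℂ) *
        (if (p' : ℤ) = p + j ∧ (q' : ℤ) = q + j then
          (-1) ^ (p + q) * block G G' U p q p' q' else 0) := by
  by_cases h : (p : ℤ) - q = (p' : ℤ) - q'
  · have hj : ((p' : ℤ) - p) ∈ Finset.Icc (-n : ℤ) n := by
      rw [Finset.mem_Icc]
      constructor <;> omega
    rw [Finset.sum_eq_single_of_mem _ hj, if_pos ⟨by ring, by linarith⟩]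
    · have hs : (-1 : ℂ) ^ (p' + q') = (-1) ^ (p + q) := by
        rcases le_total p p' with hle | hle
        · obtain ⟨k, rfl⟩ := Nat.exists_eq_add_of_le hle
          have hq : q' = q + k := by
            push_cast at h
            omega
          rw [hq, show p + k + (q + k) = p + q + 2 * k by ring, pow_add, pow_mul]
          simp
        · obtain ⟨k, rfl⟩ := Nat.exists_eq_add_of_le hle
          have hq : q = q' + k := by
            push_cast at h
            omega
          rw [hq, show p' + k + (q' + k) = p' + q' + 2 * k by ring, pow_add _ (p' + q'), pow_mul]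
          simp
      rw [hs]
      push_cast
      ring
    · intro j _ hj'
      rw [if_neg, mul_zero]
      rintro ⟨h1, -⟩
      exact hj' (by linarith)
  · rw [block_eq_zero hU h]
    simp

/-- the trace of the form degree changes by the supertraces of the parts of the isomorphism -/
theorem degreeTrace_eq {U : V ≃ₗ[ℂ] W}
    (hU : ∀ p q v, v ∈ G.H p q → U v ∈ G'.column ((p : ℤ) - q)) :
    (G'.degreeTrace : ℂ) = G.degreeTrace +
      ∑ j ∈ Finset.Icc (-n : ℤ) n, (j : ℂ) * supertrace G G' U j := by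
  have e1 : (G'.degreeTrace : ℂ) = ∑ p ∈ Finset.range (n + 1), ∑ q ∈ Finset.range (n + 1),
      ∑ p' ∈ Finset.range (n + 1), ∑ q' ∈ Finset.range (n + 1),
        (-1 : ℂ) ^ (p' + q') * p' * block G G' U p q p' q' := by
    rw [sum4_comm]
    unfold degreeTrace
    push_cast
    refine Finset.sum_congr rfl fun p' _ => Finset.sum_congr rfl fun q' _ => ?_
    simp only [← Finset.mul_sum]
    rw [sum_block_left]
  have e2 : (G.degreeTrace : ℂ) = ∑ p ∈ Finset.range (n + 1), ∑ q ∈ Finset.range (n + 1),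
      ∑ p' ∈ Finset.range (n + 1), ∑ q' ∈ Finset.range (n + 1),
        (-1 : ℂ) ^ (p + q) * p * block G G' U p q p' q' := by
    unfold degreeTrace
    push_cast
    refine Finset.sum_congr rfl fun p _ => Finset.sum_congr rfl fun q _ => ?_
    simp only [← Finset.mul_sum]
    rw [sum_block_right]
  have e3 : ∑ j ∈ Finset.Icc (-n : ℤ) n, (j : ℂ) * supertrace G G' U j =
      ∑ p ∈ Finset.range (n + 1), ∑ q ∈ Finset.range (n + 1),
      ∑ p' ∈ Finset.range (n + 1), ∑ q' ∈ Finset.range (n + 1),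
      ∑ j ∈ Finset.Icc (-n : ℤ) n, (j : ℂ) *
        (if (p' : ℤ) = p + j ∧ (q' : ℤ) = q + j then
          (-1) ^ (p + q) * block G G' U p q p' q' else 0) := by
    unfold supertrace
    simp only [Finset.mul_sum]
    rw [Finset.sum_comm]
    refine Finset.sum_congr rfl fun p _ => ?_
    rw [Finset.sum_comm]
    refine Finset.sum_congr rfl fun q _ => ?_
    rw [Finset.sum_comm]
    refine Finset.sum_congr rfl fun p' _ => ?_
    rw [Finset.sum_comm]
  rw [e1, e2, e3]
  simp only [← Finset.sum_add_distrib]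
  refine Finset.sum_congr rfl fun p hp => Finset.sum_congr rfl fun q _ =>
    Finset.sum_congr rfl fun p' hp' => Finset.sum_congr rfl fun q' _ => ?_
  rw [Finset.mem_range] at hp hp'
  exact block_identity hU (by omega) (by omega)

end Bigraded

end Pool.Agent.Twists2
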