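import Mathlib

/-!
# An affine function which is a sum of exponentials is constant
-/

set_option autoImplicit false

namespace Pool.Agent.Twists2

theorem slope_eq_zero {ι : Type*} (T : Finset ι) (a c : ι → ℂ) (α β : ℂ)
    (h : ∀ m : ℕ, α + β * m = ∑ i ∈ T, a i * c i ^ m) : β = 0 := by
  classical
  induction T using Finset.induction_on generalizing a α β with
  | empty =>
    have h0 := h 0
    have h1 := h 1
    simp only [Finset.sum_empty, Nat.cast_zero, mul_zero, add_zero, Nat.cast_one, mul_one] at h0 h1
    rw [h0, zero_add] at h1
    exact h1
  | insert i T hi ih =>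
    by_cases hc : c i = 1
    · refine ih a (α - a i) β fun m => ?_
      have := h m
      rw [Finset.sum_insert hi, hc, one_pow, mul_one] at this
      linear_combination this
    · have h1 : β * (1 - c i) = 0 := by
        refine ih (fun k => a k * (c k - c i)) (α * (1 - c i) + β) (β * (1 - c i)) fun m => ?_
        have e0 := h m
        have e1 := h (m + 1)
        rw [Finset.sum_insert hi] at e0 e1
        have e2 : ∑ k ∈ T, a k * (c k - c i) * c k ^ m =
            ∑ k ∈ T, a k * c k ^ (m + 1) - c i * ∑ k ∈ T, a k * c k ^ m := by
          rw [Finset.mul_sum, ← Finset.sum_sub_distrib]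
          refine Finset.sum_congr rfl fun k _ => ?_
          ring
        rw [e2]
        push_cast at e1
        linear_combination e1 - c i * e0
      rcases mul_eq_zero.1 h1 with h2 | h2
      · exact h2
      · exact absurd (sub_eq_zero.1 h2).symm hc

end Pool.Agent.Twists2
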