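import Pool.Agent.Helper28.HT.Final
import Pool.Agent.Helper2.CT.Degree
import Pool.Agent.Helper2.CT.Exp

/-!
# Twists of the Hodge cohomology by powers of the canonical line bundle
-/

set_option autoImplicit false

namespace Pool.Agent.Twists2

open Pool.Agent.Hodge81 Module

/-- The spaces `V m = ⨁ H^q(X, Ω^p ⊗ ω^m)`, where `ω` is the canonical line bundle, of a smooth
projective variety `X` of dimension `n` with cohomology ring `A`. -/
structure CanonicalTwists {n : ℕ} {A : Type*} [Ring A] [Algebra ℂ A] (X : HodgeRing n A)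
    (V : ℤ → Type*) [∀ m, AddCommGroup (V m)] [∀ m, Module ℂ (V m)] where
  /-- `(grading m).H p q` is `H^q(X, Ω^p ⊗ ω^m)` -/
  grading : ∀ m, Bigraded n (V m)
  zero : ∀ p q, finrank ℂ ((grading 0).H p q) = X.h p q
  /-- Riemann-Roch: `∑ (-1)^p p χ(X, Ω^p ⊗ ω^m) = (n/2) c_n + m c_1 c_{n-1}` -/
  riemannRoch : ∀ m, 2 * (grading m).degreeTrace =
    n * (∑ p ∈ Finset.range (n + 1), ∑ q ∈ Finset.range (n + 1), (-1) ^ (p + q) * (X.h p q : ℤ)) +
      m * X.chernNumber

/-- What an equivalence `D(X) ≅ D(Y)` gives on the spaces `⨁ H^q(Ω^p ⊗ ω^m)`. Let `P`, `Q` be the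
kernels of the equivalence and of its inverse, and let `M` be the line bundle
`Hom(p^* ω_X, q^* ω_Y)` on `X × Y`. The kernel `P` has an isomorphism `P → P ⊗ M`, hence it comes
from a complex on the `ℂ^*`-bundle of `M`, whose support is finite over the one of `P`; similarly
for `Q`. The fibre product of the two bundles is a smooth variety of dimension `2n + 2`. On it
`R` is the ring of functions, `S` the set of points of the support of the product of the two
complexes, and `L` the cohomology of the canonical line bundle in degree `2n + 2` with support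
in `S`. -/
structure TwistedEquivalence {n : ℕ} {V W : ℤ → Type*} [∀ m, AddCommGroup (V m)]
    [∀ m, Module ℂ (V m)] [∀ m, AddCommGroup (W m)] [∀ m, Module ℂ (W m)]
    (G : ∀ m, Bigraded n (V m)) (G' : ∀ m, Bigraded n (W m)) (R L S : Type*) [CommRing R]
    [Algebra ℂ R] [AddCommGroup L] [Module ℂ L] [Module R L] [IsScalarTower ℂ R L] where
  /-- the isomorphisms induced by the equivalence -/
  U : ∀ m, V m ≃ₗ[ℂ] W m
  /-- they preserve the difference `p - q` -/
  column : ∀ m p q v, v ∈ (G m).H p q → U m v ∈ (G' m).column ((p : ℤ) - q)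
  /-- the trace map -/
  trace : L →ₗ[ℂ] ℂ
  /-- the value of a function in a point -/
  value : S → R →ₐ[ℂ] ℂ
  /-- the class of a point -/
  point : S → L
  trace_point : ∀ s f, trace (f • point s) = value s f
  /-- the quotient of the two fibre coordinates -/
  ratio : Rˣ
  /-- the parts of top degree of the products of the Mukai vectors of the two complexes -/
  cycle : ℤ → L
  /-- characters of complexes of sheaves are classes of algebraic cycles -/
  cycle_mem : ∀ j, cycle j ∈ Submodule.span ℂ (Set.range point)
  /-- the supertrace of `(U⁻¹)_{-j} U_j`, where `U_j` is the part of bidegree `(j, j)`, is the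
  intersection number of the corresponding parts of the twisted Mukai vectors -/
  trace_formula : ∀ m j,
    (G m).supertrace (G' m) (U m) j = trace (((ratio ^ m : Rˣ) : R) • cycle j)

namespace TwistedEquivalence

variable {n : ℕ} {V W : ℤ → Type*} [∀ m, AddCommGroup (V m)] [∀ m, Module ℂ (V m)]
  [∀ m, AddCommGroup (W m)] [∀ m, Module ℂ (W m)] {G : ∀ m, Bigraded n (V m)}
  {G' : ∀ m, Bigraded n (W m)} {R L S : Type*} [CommRing R] [Algebra ℂ R] [AddCommGroup L]
  [Module ℂ L] [Module R L] [IsScalarTower ℂ R L] (E : TwistedEquivalence G G' R L S)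

include E in
/-- the supertraces are sums of exponentials -/
theorem exists_exponentials (j : ℤ) : ∃ (T : Finset S) (a : S → ℂ), ∀ m : ℤ,
    (G m).supertrace (G' m) (E.U m) j =
      ∑ s ∈ T, a s * ((Units.map (E.value s : R →* ℂ) E.ratio ^ m : ℂˣ) : ℂ) := by
  obtain ⟨a, ha⟩ := (Finsupp.mem_span_range_iff_exists_finsupp).1 (E.cycle_mem j)
  refine ⟨a.support, a, fun m => ?_⟩
  rw [E.trace_formula, ← ha, Finsupp.sum, Finset.smul_sum, map_sum]
  refine Finset.sum_congr rfl fun s _ => ?_
  rw [smul_comm, map_smul, E.trace_point, smul_eq_mul, ← map_zpow]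
  rfl

end TwistedEquivalence

end Pool.Agent.Twists2
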