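import Pool.Agent.Helper2.CT.Defs

/-!
# The Chern number `c_1 c_{n-1}`
-/

set_option autoImplicit false

namespace Pool.Agent.Twists2

open Pool.Agent.Hodge81 Module

variable {n : ℕ} {A B : Type*} [Ring A] [Algebra ℂ A] [Ring B] [Algebra ℂ B]
  {X : HodgeRing n A} {Y : HodgeRing n B} {V W : ℤ → Type*} [∀ m, AddCommGroup (V m)]
  [∀ m, Module ℂ (V m)] [∀ m, FiniteDimensional ℂ (V m)] [∀ m, AddCommGroup (W m)]
  [∀ m, Module ℂ (W m)] [∀ m, FiniteDimensional ℂ (W m)] {R L S : Type*} [CommRing R]
  [Algebra ℂ R] [AddCommGroup L] [Module ℂ L] [Module R L] [IsScalarTower ℂ R L]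

/-- `c_1 c_{n-1}` is the same for both varieties: the trace of the form degree is an affine function
of the twist, and it changes by a sum of exponentials -/
theorem chernNumber_eq (CX : CanonicalTwists X V) (CY : CanonicalTwists Y W)
    (E : TwistedEquivalence CX.grading CY.grading R L S) : X.chernNumber = Y.chernNumber := by
  choose T a ha using E.exists_exponentials
  set J := Finset.Icc (-n : ℤ) n with hJ
  set eX : ℤ := ∑ p ∈ Finset.range (n + 1), ∑ q ∈ Finset.range (n + 1),
    (-1) ^ (p + q) * (X.h p q : ℤ) with heX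
  set eY : ℤ := ∑ p ∈ Finset.range (n + 1), ∑ q ∈ Finset.range (n + 1),
    (-1) ^ (p + q) * (Y.h p q : ℤ) with heY
  have key : ((Y.chernNumber : ℂ) - X.chernNumber) = 0 := by
    refine slope_eq_zero (J.sigma T) (fun x => 2 * (x.1 : ℂ) * a x.1 x.2)
      (fun x => E.value x.2 (E.ratio : R)) ((n : ℂ) * eY - n * eX) _ fun m => ?_
    have h1 := Bigraded.degreeTrace_eq (E.column m)
    have h2 := CX.riemannRoch m
    have h3 := CY.riemannRoch m
    have h2' : (2 : ℂ) * (CX.grading m).degreeTrace = n * eX + m * X.chernNumber := by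
      exact_mod_cast h2
    have h3' : (2 : ℂ) * (CY.grading m).degreeTrace = n * eY + m * Y.chernNumber := by
      exact_mod_cast h3
    rw [Finset.sum_sigma]
    have h4 : ∑ j ∈ J, ∑ s ∈ T j, 2 * (j : ℂ) * a j s * E.value s (E.ratio : R) ^ m =
        2 * ∑ j ∈ J, (j : ℂ) * (CX.grading m).supertrace (CY.grading m) (E.U m) j := by
      rw [Finset.mul_sum]
      refine Finset.sum_congr rfl fun j _ => ?_
      rw [ha, Finset.mul_sum, Finset.mul_sum]
      refine Finset.sum_congr rfl fun s _ => ?_
      rw [zpow_natCast, Units.val_pow_eq_pow_val, Units.coe_map]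
      simp only [MonoidHom.coe_coe]
      ring
    rw [h4]
    linear_combination h2' - h3' + 2 * h1
  exact_mod_cast (sub_eq_zero.1 key).symm

end Pool.Agent.Twists2
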