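import Pool.Agent.Helper28.HT.Final

/-!
# Hodge numbers in dimension six
-/

set_option autoImplicit false

namespace Pool.Agent.Hodge81

open Module

variable {n : ℕ} {A B : Type*} [Ring A] [Algebra ℂ A] [FiniteDimensional ℂ A]
  [Ring B] [Algebra ℂ B] [FiniteDimensional ℂ B]

theorem chern_six (X : HodgeRing 6 A) : X.chernNumber =
      204 * (X.h 0 0 : ℤ) - 288 * (X.h 1 0 : ℤ) + 216 * (X.h 2 0 : ℤ) - 192 * (X.h 3 0 : ℤ)
      + 216 * (X.h 4 0 : ℤ) - 288 * (X.h 5 0 : ℤ) + 204 * (X.h 6 0 : ℤ) + 84 * (X.h 1 1 : ℤ)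
      - 96 * (X.h 2 1 : ℤ) + 72 * (X.h 3 1 : ℤ) - 96 * (X.h 4 1 : ℤ) + 84 * (X.h 5 1 : ℤ)
      + 12 * (X.h 2 2 : ℤ) + 12 * (X.h 4 2 : ℤ) - 6 * (X.h 3 3 : ℤ) := by
  have e01 : X.h 0 1 = X.h 1 0 := X.h_conj 0 1
  have e02 : X.h 0 2 = X.h 2 0 := X.h_conj 0 2
  have e03 : X.h 0 3 = X.h 3 0 := X.h_conj 0 3
  have e04 : X.h 0 4 = X.h 4 0 := X.h_conj 0 4
  have e05 : X.h 0 5 = X.h 5 0 := X.h_conj 0 5
  have e06 : X.h 0 6 = X.h 6 0 := X.h_conj 0 6
  have e12 : X.h 1 2 = X.h 2 1 := X.h_conj 1 2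
  have e13 : X.h 1 3 = X.h 3 1 := X.h_conj 1 3
  have e14 : X.h 1 4 = X.h 4 1 := X.h_conj 1 4
  have e15 : X.h 1 5 = X.h 5 1 := X.h_conj 1 5
  have e16 : X.h 1 6 = X.h 5 0 := (X.h_serre (p := 1) (q := 6) (by norm_num) (by norm_num)).symm
  have e23 : X.h 2 3 = X.h 3 2 := X.h_conj 2 3
  have e24 : X.h 2 4 = X.h 4 2 := X.h_conj 2 4
  have e25 : X.h 2 5 = X.h 4 1 := (X.h_serre (p := 2) (q := 5) (by norm_num) (by norm_num)).symm
  have e26 : X.h 2 6 = X.h 4 0 := (X.h_serre (p := 2) (q := 6) (by norm_num) (by norm_num)).symm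
  have e34 : X.h 3 4 = X.h 3 2 := (X.h_serre (p := 3) (q := 4) (by norm_num) (by norm_num)).symm
  have e35 : X.h 3 5 = X.h 3 1 := (X.h_serre (p := 3) (q := 5) (by norm_num) (by norm_num)).symm
  have e36 : X.h 3 6 = X.h 3 0 := (X.h_serre (p := 3) (q := 6) (by norm_num) (by norm_num)).symm
  have e43 : X.h 4 3 = X.h 3 2 :=
    (X.h_conj 4 3).trans (X.h_serre (p := 3) (q := 4) (by norm_num) (by norm_num)).symm
  have e44 : X.h 4 4 = X.h 2 2 := (X.h_serre (p := 4) (q := 4) (by norm_num) (by norm_num)).symm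
  have e45 : X.h 4 5 = X.h 2 1 := (X.h_serre (p := 4) (q := 5) (by norm_num) (by norm_num)).symm
  have e46 : X.h 4 6 = X.h 2 0 := (X.h_serre (p := 4) (q := 6) (by norm_num) (by norm_num)).symm
  have e52 : X.h 5 2 = X.h 4 1 :=
    (X.h_conj 5 2).trans (X.h_serre (p := 2) (q := 5) (by norm_num) (by norm_num)).symm
  have e53 : X.h 5 3 = X.h 3 1 :=
    (X.h_conj 5 3).trans (X.h_serre (p := 3) (q := 5) (by norm_num) (by norm_num)).symm
  have e54 : X.h 5 4 = X.h 2 1 :=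
    (X.h_conj 5 4).trans (X.h_serre (p := 4) (q := 5) (by norm_num) (by norm_num)).symm
  have e55 : X.h 5 5 = X.h 1 1 := (X.h_serre (p := 5) (q := 5) (by norm_num) (by norm_num)).symm
  have e56 : X.h 5 6 = X.h 1 0 := (X.h_serre (p := 5) (q := 6) (by norm_num) (by norm_num)).symm
  have e61 : X.h 6 1 = X.h 5 0 :=
    (X.h_conj 6 1).trans (X.h_serre (p := 1) (q := 6) (by norm_num) (by norm_num)).symm
  have e62 : X.h 6 2 = X.h 4 0 :=
    (X.h_conj 6 2).trans (X.h_serre (p := 2) (q := 6) (by norm_num) (by norm_num)).symm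
  have e63 : X.h 6 3 = X.h 3 0 :=
    (X.h_conj 6 3).trans (X.h_serre (p := 3) (q := 6) (by norm_num) (by norm_num)).symm
  have e64 : X.h 6 4 = X.h 2 0 :=
    (X.h_conj 6 4).trans (X.h_serre (p := 4) (q := 6) (by norm_num) (by norm_num)).symm
  have e65 : X.h 6 5 = X.h 1 0 :=
    (X.h_conj 6 5).trans (X.h_serre (p := 5) (q := 6) (by norm_num) (by norm_num)).symm
  have e66 : X.h 6 6 = X.h 0 0 := (X.h_serre (p := 6) (q := 6) (by norm_num) (by norm_num)).symm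
  unfold HodgeRing.chernNumber
  simp only [Finset.sum_range_succ, Finset.sum_range_zero]
  rw [e01, e02, e03, e04, e05, e06, e12, e13, e14, e15, e16, e23, e24, e25, e26, e34, e35, e36,
    e43, e44, e45, e46, e52, e53, e54, e55, e56, e61, e62, e63, e64, e65, e66]
  push_cast
  ring

theorem HodgeRing.h_le_succ (X : HodgeRing n A) {p q : ℕ} (h : p + q < n) :
    X.h p q ≤ X.h (p + 1) (q + 1) := by
  let f : X.H p q →ₗ[ℂ] X.H (p + 1) (q + 1) :=
    { toFun := fun a => ⟨a.1 * X.omega, X.mul_mem _ _ _ _ _ _ a.2 X.omega_mem⟩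
      map_add' := fun a b => Subtype.ext (add_mul _ _ _)
      map_smul' := fun z a => Subtype.ext (smul_mul_assoc _ _ _) }
  have hf : Function.Injective f := by
    rw [injective_iff_map_eq_zero]
    intro a ha
    have h1 : a.1 * X.omega = 0 := congrArg Subtype.val ha
    have h2 : X.omega * a.1 = 0 := by
      rw [X.comm 1 1 p q _ _ X.omega_mem a.2, h1, smul_zero]
    refine Subtype.ext (X.lefschetz a.2 h.le ?_)
    obtain ⟨k, hk⟩ : ∃ k, n - (p + q) = k + 1 := ⟨n - (p + q) - 1, by omega⟩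
    rw [hk, pow_succ, mul_assoc, h2, mul_zero]
  exact LinearMap.finrank_le_finrank_of_injective hf

namespace IsMukaiIsometry

/-- dimension six: the relation between the Hodge numbers which are not determined -/
theorem six_rel {X : HodgeRing 6 A} {Y : HodgeRing 6 B} {phi : A ≃ₗ[ℂ] B}
    (hphi : IsMukaiIsometry X Y phi) (h1 : X.h 0 1 = Y.h 0 1) (h2 : X.h 0 2 = Y.h 0 2)
    (hc : X.chernNumber = Y.chernNumber) :
    (Y.h 1 1 : ℤ) - X.h 1 1 = ((Y.h 0 3 : ℤ) - X.h 0 3) + ((Y.h 1 2 : ℤ) - X.h 1 2) ∧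
    (X.h 0 3 = Y.h 0 3 → X.h 1 2 = Y.h 1 2 → ∀ p q, X.h p q = Y.h p q) ∧
    (X.h 0 3 = 0 → X.h 1 2 = X.h 0 1 →
      (X.h 2 2 = X.h 1 1 ∨ X.h 1 4 ≤ 1 ∧ X.h 2 3 ≤ X.h 0 1 + 1) →
      ∀ p q, X.h p q = Y.h p q) := by
  have h0 := h_zero_zero X Y
  have k := coro_six hphi h2
  have k60 := k 6 0 (by norm_num)
  have k20 := k 2 0 (by norm_num)
  have k40 := k 4 0 (by norm_num)
  have k50 := k 5 0 (by norm_num)
  have k31 := k 3 1 (by norm_num)
  have k51 := k 5 1 (by norm_num)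
  have k22 := k 2 2 (by norm_num)
  have k42 := k 4 2 (by norm_num)
  have c0 := column_sum hphi (a := 0) (b := 0) (m := 6) rfl (Or.inr rfl)
  have c1 := column_sum hphi (a := 1) (b := 0) (m := 5) rfl (Or.inr rfl)
  have c3 := column_sum hphi (a := 3) (b := 0) (m := 3) rfl (Or.inr rfl)
  have x10 := X.h_conj 0 1
  have y10 := Y.h_conj 0 1
  have x30 := X.h_conj 0 3
  have y30 := Y.h_conj 0 3
  have x21 := X.h_conj 1 2
  have y21 := Y.h_conj 1 2
  have x14 := X.h_conj 1 4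
  have x23 := X.h_conj 2 3
  have x66 : X.h 0 0 = X.h 6 6 := X.h_serre (p := 6) (q := 6) (by norm_num) (by norm_num)
  have y66 : Y.h 0 0 = Y.h 6 6 := Y.h_serre (p := 6) (q := 6) (by norm_num) (by norm_num)
  have x55 : X.h 1 1 = X.h 5 5 := X.h_serre (p := 5) (q := 5) (by norm_num) (by norm_num)
  have y55 : Y.h 1 1 = Y.h 5 5 := Y.h_serre (p := 5) (q := 5) (by norm_num) (by norm_num)
  have x44 : X.h 2 2 = X.h 4 4 := X.h_serre (p := 4) (q := 4) (by norm_num) (by norm_num)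
  have y44 : Y.h 2 2 = Y.h 4 4 := Y.h_serre (p := 4) (q := 4) (by norm_num) (by norm_num)
  have x65 : X.h 0 1 = X.h 6 5 := X.h_serre (p := 6) (q := 5) (by norm_num) (by norm_num)
  have y65 : Y.h 0 1 = Y.h 6 5 := Y.h_serre (p := 6) (q := 5) (by norm_num) (by norm_num)
  have x54 : X.h 1 2 = X.h 5 4 := X.h_serre (p := 5) (q := 4) (by norm_num) (by norm_num)
  have y54 : Y.h 1 2 = Y.h 5 4 := Y.h_serre (p := 5) (q := 4) (by norm_num) (by norm_num)
  have x43 : X.h 2 3 = X.h 4 3 := X.h_serre (p := 4) (q := 3) (by norm_num) (by norm_num)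
  have y43 : Y.h 2 3 = Y.h 4 3 := Y.h_serre (p := 4) (q := 3) (by norm_num) (by norm_num)
  have x32 := X.h_conj 2 3
  have y32 := Y.h_conj 2 3
  have x63 : X.h 0 3 = X.h 6 3 := X.h_serre (p := 6) (q := 3) (by norm_num) (by norm_num)
  have y63 : Y.h 0 3 = Y.h 6 3 := Y.h_serre (p := 6) (q := 3) (by norm_num) (by norm_num)
  have x52 : X.h 1 4 = X.h 5 2 := X.h_serre (p := 5) (q := 2) (by norm_num) (by norm_num)
  have y52 : Y.h 1 4 = Y.h 5 2 := Y.h_serre (p := 5) (q := 2) (by norm_num) (by norm_num)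
  have y14 := Y.h_conj 1 4
  have lx : X.h 0 3 ≤ X.h 1 4 := X.h_le_succ (by norm_num)
  have ly : Y.h 0 3 ≤ Y.h 1 4 := Y.h_le_succ (by norm_num)
  have mx : X.h 0 1 ≤ X.h 1 2 := X.h_le_succ (by norm_num)
  have mx' : X.h 1 2 ≤ X.h 2 3 := X.h_le_succ (by norm_num)
  have my : Y.h 0 1 ≤ Y.h 1 2 := Y.h_le_succ (by norm_num)
  have my' : Y.h 1 2 ≤ Y.h 2 3 := Y.h_le_succ (by norm_num)
  have ny : Y.h 1 1 ≤ Y.h 2 2 := Y.h_le_succ (by norm_num)
  simp only [Finset.sum_range_succ, Finset.sum_range_zero] at c0 c1 c3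
  norm_num at c0 c1 c3
  rw [chern_six, chern_six] at hc
  have all : X.h 0 3 = Y.h 0 3 → X.h 1 2 = Y.h 1 2 → ∀ p q, X.h p q = Y.h p q := by
    intro h03 h12 p q
    refine reduce X Y (fun _ _ => True) (fun _ _ _ => trivial) (fun _ _ _ _ _ => trivial)
      (fun p q hqp hpq _ => ?_) p q trivial
    have hp : p ≤ 6 := by omega
    have hq : q ≤ 3 := by omega
    interval_cases q <;> interval_cases p <;> omega
  refine ⟨by omega, all, fun h03 h12 h => all ?_ ?_⟩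
  · omega
  · omega

end IsMukaiIsometry

end Pool.Agent.Hodge81
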