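import Mathlib

/-!
# Bigraded vector spaces, and the parts of an isomorphism which preserves the columns
-/

set_option autoImplicit false

namespace Pool.Agent.Twists2

open Module

/-- a finite bigrading `V = ⨁ H p q`, `0 ≤ p, q ≤ n` -/
structure Bigraded (n : ℕ) (V : Type*) [AddCommGroup V] [Module ℂ V] where
  H : ℕ → ℕ → Submodule ℂ V
  internal : DirectSum.IsInternal (fun x : ℕ × ℕ => H x.1 x.2)
  bounded : ∀ p q, n < p ∨ n < q → H p q = ⊥

namespace Bigraded

variable {n : ℕ} {V W : Type*} [AddCommGroup V] [Module ℂ V] [AddCommGroup W] [Module ℂ W]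
  (G : Bigraded n V) (G' : Bigraded n W)

/-- the projection onto `H p q` -/
noncomputable def proj (p q : ℕ) : V →ₗ[ℂ] V :=
  (G.H p q).subtype ∘ₗ DirectSum.component ℂ (ℕ × ℕ) (fun x => G.H x.1 x.2) (p, q) ∘ₗ
    (LinearEquiv.ofBijective (DirectSum.coeLinearMap (fun x : ℕ × ℕ => G.H x.1 x.2))
      G.internal).symm.toLinearMap

/-- the column `⨁_{p - q = i} H p q` -/
def column (i : ℤ) : Submodule ℂ V :=
  ⨆ (x : ℕ × ℕ) (_ : (x.1 : ℤ) - (x.2 : ℤ) = i), G.H x.1 x.2

theorem proj_mem (p q : ℕ) (v : V) : G.proj p q v ∈ G.H p q := by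
  unfold proj
  exact Submodule.coe_mem _

theorem proj_of_mem {p q : ℕ} {v : V} (hv : v ∈ G.H p q) (p' q' : ℕ) :
    G.proj p' q' v = if (p, q) = (p', q') then v else 0 := by
  have h : (LinearEquiv.ofBijective (DirectSum.coeLinearMap (fun x : ℕ × ℕ => G.H x.1 x.2))
      G.internal).symm v = DirectSum.lof ℂ (ℕ × ℕ) (fun x => G.H x.1 x.2) (p, q) ⟨v, hv⟩ := by
    rw [LinearEquiv.symm_apply_eq]
    exact (DirectSum.coeLinearMap_lof (fun x : ℕ × ℕ => G.H x.1 x.2) (p, q) ⟨v, hv⟩).symm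
  unfold proj
  rw [LinearMap.comp_apply, LinearMap.comp_apply, LinearEquiv.coe_coe, h]
  by_cases hx : (p, q) = (p', q')
  · rw [if_pos hx]
    obtain ⟨rfl, rfl⟩ := Prod.ext_iff.1 hx
    rw [DirectSum.component.lof_self]
    rfl
  · rw [if_neg hx, DirectSum.component.of]
    rw [dif_neg hx]
    simp

theorem sum_proj (v : V) :
    ∑ p ∈ Finset.range (n + 1), ∑ q ∈ Finset.range (n + 1), G.proj p q v = v := by
  have hv : v ∈ ⨆ x : ℕ × ℕ, G.H x.1 x.2 := by
    rw [G.internal.submodule_iSup_eq_top]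
    trivial
  refine Submodule.iSup_induction (fun x : ℕ × ℕ => G.H x.1 x.2)
    (motive := fun v => ∑ p ∈ Finset.range (n + 1), ∑ q ∈ Finset.range (n + 1),
      G.proj p q v = v) hv ?_ ?_ ?_
  · rintro ⟨p, q⟩ w hw
    by_cases hb : n < p ∨ n < q
    · have h0 : w = 0 := by
        have : w ∈ G.H p q := hw
        rw [G.bounded p q hb] at this
        exact (Submodule.mem_bot ℂ).1 this
      rw [h0]
      simp
    · push Not at hb
      rw [Finset.sum_eq_single_of_mem p (Finset.mem_range.2 (by omega)),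
        Finset.sum_eq_single_of_mem q (Finset.mem_range.2 (by omega)), G.proj_of_mem hw,
        if_pos rfl]
      · intro q' _ hq
        rw [G.proj_of_mem hw, if_neg]
        intro h
        exact hq (Prod.ext_iff.1 h).2.symm
      · intro p' _ hp
        refine Finset.sum_eq_zero fun q' _ => ?_
        rw [G.proj_of_mem hw, if_neg]
        intro h
        exact hp (Prod.ext_iff.1 h).1.symm
  · simp
  · intro x y hx hy
    simp only [map_add, Finset.sum_add_distrib]
    rw [hx, hy]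

theorem trace_proj [FiniteDimensional ℂ V] (p q : ℕ) :
    LinearMap.trace ℂ V (G.proj p q) = finrank ℂ (G.H p q) := by
  refine LinearMap.IsProj.trace ⟨fun v => G.proj_mem p q v, fun v hv => ?_⟩
  rw [G.proj_of_mem hv, if_pos rfl]

/-- the projection to `H p q` kills the other columns -/
theorem proj_column {i : ℤ} {v : V} (hv : v ∈ G.column i) (p q : ℕ) (h : (p : ℤ) - q ≠ i) :
    G.proj p q v = 0 := by
  have hle : G.column i ≤ LinearMap.ker (G.proj p q) := by
    refine iSup₂_le fun x hx => ?_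
    intro w hw
    rw [LinearMap.mem_ker, G.proj_of_mem hw, if_neg]
    intro he
    obtain ⟨h1, h2⟩ := Prod.ext_iff.1 he
    simp only at h1 h2
    rw [h1, h2] at hx
    exact h hx
  exact LinearMap.mem_ker.1 (hle hv)

/-- `trace ((U⁻¹)_{-j} U_j)` on `H p q`, where `p' = p + j`, `q' = q + j` -/
noncomputable def block (U : V ≃ₗ[ℂ] W) (p q p' q' : ℕ) : ℂ :=
  LinearMap.trace ℂ V (G.proj p q ∘ₗ U.symm.toLinearMap ∘ₗ G'.proj p' q' ∘ₗ U.toLinearMap)

/-- The supertrace of `(U⁻¹)_{-j} U_j` for an isomorphism `U`, where `U_j` is the part of `U` of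
bidegree `(j, j)`. -/
noncomputable def supertrace (U : V ≃ₗ[ℂ] W) (j : ℤ) : ℂ :=
  ∑ p ∈ Finset.range (n + 1), ∑ q ∈ Finset.range (n + 1),
    ∑ p' ∈ Finset.range (n + 1), ∑ q' ∈ Finset.range (n + 1),
      if (p' : ℤ) = p + j ∧ (q' : ℤ) = q + j then (-1) ^ (p + q) * block G G' U p q p' q' else 0

/-- `∑ (-1)^{p+q} p dim H p q` -/
noncomputable def degreeTrace : ℤ :=
  ∑ p ∈ Finset.range (n + 1), ∑ q ∈ Finset.range (n + 1),
    (-1) ^ (p + q) * (p : ℤ) * (finrank ℂ (G.H p q) : ℤ)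

variable {G G'}

section

variable [FiniteDimensional ℂ V]

theorem block_eq_zero {U : V ≃ₗ[ℂ] W}
    (hU : ∀ p q v, v ∈ G.H p q → U v ∈ G'.column ((p : ℤ) - q)) {p q p' q' : ℕ}
    (h : (p : ℤ) - q ≠ (p' : ℤ) - q') : block G G' U p q p' q' = 0 := by
  unfold block
  rw [LinearMap.trace_comp_comm']
  have h0 : (U.symm.toLinearMap ∘ₗ G'.proj p' q' ∘ₗ U.toLinearMap) ∘ₗ G.proj p q = 0 := by
    ext v
    simp only [LinearMap.comp_apply, LinearEquiv.coe_coe, LinearMap.zero_apply]
    rw [G'.proj_column (hU p q _ (G.proj_mem p q v)) p' q' (Ne.symm h), map_zero]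
  rw [h0, map_zero]

theorem sum_block_right (U : V ≃ₗ[ℂ] W) (p q : ℕ) :
    ∑ p' ∈ Finset.range (n + 1), ∑ q' ∈ Finset.range (n + 1), block G G' U p q p' q' =
      finrank ℂ (G.H p q) := by
  rw [← G.trace_proj]
  simp only [block, ← map_sum]
  congr 1
  ext v
  simp only [LinearMap.sum_apply, LinearMap.comp_apply, LinearEquiv.coe_coe, ← map_sum]
  rw [G'.sum_proj, U.symm_apply_apply]

end

section

variable [FiniteDimensional ℂ W]

theorem sum_block_left (U : V ≃ₗ[ℂ] W) (p' q' : ℕ) :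
    ∑ p ∈ Finset.range (n + 1), ∑ q ∈ Finset.range (n + 1), block G G' U p q p' q' =
      finrank ℂ (G'.H p' q') := by
  rw [← G'.trace_proj, ← LinearMap.trace_conj' (G'.proj p' q') U.symm]
  simp only [block, ← map_sum]
  congr 1
  ext v
  simp only [LinearMap.sum_apply, LinearMap.comp_apply, LinearEquiv.coe_coe]
  rw [G.sum_proj]
  simp [LinearEquiv.conj_apply]

end

end Bigraded

end Pool.Agent.Twists2
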